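import Pool.Agent.Lib.MP_c13fce_lc.UMain
import Pool.Agent.Lib.MP_c13fce_lc.Final

namespace Pool.Agent.Results.MP_c13fce_lc.Iff

open Pool.Agent.Lib.MP_c13fce_lc

theorem result (G : Type) [Group G] (n : ℕ) (e : Fin n ≃ G) :
    (ComputablePred fun k : ℕ => ∃ φ ∈ Theory (MonoidAlgebra ℤ G),
      φ.code (fun r => Encodable.encode (List.ofFn fun i => r.coeff (e i))) = k) ↔
    Squarefree (Nat.card G) := by
  have : Finite G := .of_equiv _ e
  have hc : Nat.card G = n := by rw [← Nat.card_congr e, Nat.card_fin]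
  refine ⟨fun h => by_contra fun hG => Und.undecidable G hG _ (fun r s hrs => ?_) h,
    fun h => decidable_of_squarefree G n e (hc ▸ h)⟩
  have h1 := List.ofFn_injective (Encodable.encode_injective hrs)
  ext g
  simpa using congrFun h1 (e.symm g)

end Pool.Agent.Results.MP_c13fce_lc.Iff
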